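import Pool.Agent.Run7.h192.LT.Act
import Pool.Agent.Run7.h192.LT.QGrp

/-!
# Free Q-groups of rank at least two act freely on no Lambda-tree

The definitions are in `Pool/Agent/Run7/h192/LT/Defs.lean`.  The proof shows that a group in which
every element is a square, acting freely on a `Λ`-tree, is abelian.
-/

namespace Pool.Agent.Results.MP_c6101b_al.NoFreeAction

open Run7.h192.LT

universe u v w a b

/-- **Answer to the question of MP_c6101b_al, in the negative.**  For every set `X` there is a free
`ℚ`-group on `X`, and if `X` has at least two elements then no free `ℚ`-group on `X` acts freely on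
a `Λ`-tree, whatever the totally ordered abelian group `Λ`. -/
theorem result :
    (∀ X : Type u, ∃ (G : Type u) (_ : Group G) (ι : X → G), IsFreeQGroup.{u, u, w} ι) ∧
    ∀ (X : Type u) (G : Type v) [Group G] (ι : X → G), Nontrivial X →
      IsFreeQGroup.{u, v, w} ι →
      ∀ (Λ : Type a) [AddCommGroup Λ] [LinearOrder Λ] [IsOrderedAddMonoid Λ]
        (T : Type b) (d : T → T → Λ) [MulAction G T],
        IsLambdaTree d → ¬ ActsFreely G d := by
  refine ⟨fun X => ⟨FreeQ X, inferInstance, FreeQ.ι, FreeQ.isFree X⟩, ?_⟩
  intro X G _ ι hX hι Λ _ _ _ T d _ hT hfree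
  obtain ⟨x, y, hxy⟩ := hX
  apply hι.not_comm hxy
  apply abelian_of_free hT hfree.1 (fun g hg => (hfree.2 g hg).1)
  · intro g hg
    obtain ⟨r, _, hu⟩ := hι.1 1 2 (by norm_num)
    rw [hu g (by simp only [pow_two]; exact hg), hu 1 (by simp only [one_pow])]
  · intro g
    obtain ⟨r, hr, _⟩ := hι.1 g 2 (by norm_num)
    exact ⟨r, by simp only [pow_two] at hr; exact hr⟩

end Pool.Agent.Results.MP_c6101b_al.NoFreeAction
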